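import Pool.Agent.H228R4.Euclid
import Pool.Agent.Y415.TS.Cyc

/-!
# Every transitive set lies in an orbit of a `p`-group, for every prime `p`

The starting result embeds every finite transitive set isometrically in a set on which a finite
2-group of isometries acts transitively. Here this is proved for every prime `p`: the new gadget
replaces unordered pairs by cyclic words of length `p`, two of whose entries are variable and
the others equal to a suitable constant.
-/

set_option autoImplicit false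

namespace Pool.Agent.Results.MP_528470_co.PGroupOrbit

open Finset Pool.Agent.H228R4 Pool.Agent.Y415.TS

/-- The subgroup of the isometries of `ℝ^n` mapping `X` onto itself acts transitively on `X`. -/
def IsTransitiveSet {n : ℕ} (X : Set (EuclideanSpace ℝ (Fin n))) : Prop :=
  ∀ x ∈ X, ∀ y ∈ X, ∃ g : EuclideanSpace ℝ (Fin n) ≃ᵢ EuclideanSpace ℝ (Fin n),
    ⇑g '' X = X ∧ g x = y

/-- `Y` is a soluble set: it is finite, and a soluble group of isometries, each mapping `Y` onto
itself, acts transitively on `Y`. -/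
def IsSolubleSet {n : ℕ} (Y : Set (EuclideanSpace ℝ (Fin n))) : Prop :=
  Y.Finite ∧ ∃ H : Subgroup (EuclideanSpace ℝ (Fin n) ≃ᵢ EuclideanSpace ℝ (Fin n)),
    Group.IsSolvable H ∧ (∀ h ∈ H, ⇑h '' Y = Y) ∧ ∀ y ∈ Y, ∀ z ∈ Y, ∃ h ∈ H, h y = z

/-- The orbit of the vector `y` under a group `H` of permutations of the coordinates. -/
def orb {n : ℕ} (H : Subgroup (Equiv.Perm (Fin n))) (y : EuclideanSpace ℝ (Fin n)) :
    Set (EuclideanSpace ℝ (Fin n)) :=
  {z | ∃ σ ∈ H, ∀ i, z i = y (σ i)}

lemma orb_finite {n : ℕ} (H : Subgroup (Equiv.Perm (Fin n))) (y : EuclideanSpace ℝ (Fin n)) :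
    (orb H y).Finite := by
  apply (Set.finite_range (fun σ : Equiv.Perm (Fin n) =>
    (WithLp.toLp 2 (fun i => y (σ i)) : EuclideanSpace ℝ (Fin n)))).subset
  rintro z ⟨σ, -, hz⟩
  refine ⟨σ, ?_⟩
  ext i
  exact (hz i).symm

lemma soluble_orb {n : ℕ} (H : Subgroup (Equiv.Perm (Fin n))) (y : EuclideanSpace ℝ (Fin n))
    (p k : ℕ) (hp : p.Prime) (hk : Nat.card H = p ^ k) : IsSolubleSet (orb H y) := by
  have : Fact p.Prime := ⟨hp⟩
  refine ⟨orb_finite H y, H.map (permIso n), ?_, ?_, ?_⟩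
  · have h1 : IsPGroup p H := IsPGroup.of_card hk
    have hnil : Group.IsNilpotent H := h1.isNilpotent
    have hsolv : Group.IsSolvable H := inferInstance
    exact Group.isSolvable_of_surjective ((permIso n).subgroupMap_surjective H)
  · rintro _ ⟨σ, hσ, rfl⟩
    ext z
    constructor
    · rintro ⟨w, ⟨τ, hτ, hw⟩, rfl⟩
      refine ⟨τ * σ⁻¹, H.mul_mem hτ (H.inv_mem hσ), fun i => ?_⟩
      rw [permIso_apply, hw]
      rfl
    · rintro ⟨τ, hτ, hz⟩
      refine ⟨WithLp.toLp 2 (fun i => y (τ (σ i))), ⟨τ * σ, H.mul_mem hτ hσ, fun i => rfl⟩, ?_⟩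
      ext i
      rw [permIso_apply, hz]
      show y (τ (σ (σ.symm i))) = y (τ i)
      rw [Equiv.apply_symm_apply]
  · rintro z ⟨τ, hτ, hz⟩ w ⟨τ', hτ', hw⟩
    refine ⟨permIso n (τ'⁻¹ * τ), ⟨_, H.mul_mem (H.inv_mem hτ') hτ, rfl⟩, ?_⟩
    ext i
    rw [permIso_apply, hz, hw, mul_inv_rev, inv_inv]
    show y (τ (τ.symm (τ' i))) = y (τ' i)
    rw [Equiv.apply_symm_apply]

/-- the nonempty case -/
theorem embed (p : ℕ) (hp : p.Prime) (n : ℕ) (X : Set (EuclideanSpace ℝ (Fin n)))
    (hX : X.Finite) (hne : X.Nonempty) (htr : IsTransitiveSet X) :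
    ∃ (m : ℕ) (H : Subgroup (Equiv.Perm (Fin m))) (y : EuclideanSpace ℝ (Fin m))
      (f : EuclideanSpace ℝ (Fin n) → EuclideanSpace ℝ (Fin m)),
      (∃ k : ℕ, Nat.card H = p ^ k) ∧ Isometry f ∧ f '' X ⊆ orb H y := by
  classical
  have : Fact p.Prime := ⟨hp⟩
  have : NeZero p := ⟨hp.ne_zero⟩
  have hXf : Finite X := hX
  have hXn : Nonempty X := hne.to_subtype
  -- the group of permutations of `X` induced by isometries
  let Q : Subgroup (Equiv.Perm X) :=
    { carrier := {π | ∃ g : EuclideanSpace ℝ (Fin n) ≃ᵢ EuclideanSpace ℝ (Fin n),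
        ∀ x : X, g x = (π x : EuclideanSpace ℝ (Fin n))}
      mul_mem' := by
        rintro a b ⟨g, hg⟩ ⟨h, hh⟩
        refine ⟨g * h, fun x => ?_⟩
        rw [IsometryEquiv.mul_apply, hh, hg]
        rfl
      one_mem' := ⟨1, fun x => rfl⟩
      inv_mem' := by
        rintro a ⟨g, hg⟩
        refine ⟨g⁻¹, fun x => ?_⟩
        have h1 := hg (a⁻¹ x)
        have h2 : a (a⁻¹ x) = x := by simp
        rw [h2] at h1
        rw [← h1]
        exact g.symm_apply_apply _ }
  have hQtr : ∀ a b : X, ∃ π : Q, π.1 b = a := by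
    intro a b
    obtain ⟨g, hgX, hgb⟩ := htr b.1 b.2 a.1 a.2
    have hmem : ∀ x : X, g x ∈ X := by
      intro x
      have hx : g x ∈ ⇑g '' X := ⟨x, x.2, rfl⟩
      rwa [hgX] at hx
    have hbij : Function.Bijective (fun x : X => (⟨g x, hmem x⟩ : X)) := by
      constructor
      · intro x y hxy
        have := congrArg Subtype.val hxy
        exact Subtype.ext (g.injective this)
      · intro y
        have hy : (y : EuclideanSpace ℝ (Fin n)) ∈ ⇑g '' X := by rw [hgX]; exact y.2
        obtain ⟨x, hx, hxy⟩ := hy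
        exact ⟨⟨x, hx⟩, Subtype.ext hxy⟩
    refine ⟨⟨Equiv.ofBijective _ hbij, g, fun x => rfl⟩, ?_⟩
    exact Subtype.ext hgb
  have hQf : Finite Q := inferInstance
  obtain ⟨m, ⟨e⟩⟩ : ∃ m : ℕ, Nonempty (Q ≃ Fin (m + 1)) := by
    have h1 : 0 < Nat.card Q := Nat.card_pos
    refine ⟨Nat.card Q - 1, ?_⟩
    have h2 : Nat.card Q - 1 + 1 = Nat.card Q := by omega
    rw [h2]
    exact ⟨Finite.equivFin Q⟩
  have hiso : ∀ π : Q, ∃ g : EuclideanSpace ℝ (Fin n) ≃ᵢ EuclideanSpace ℝ (Fin n),
      ∀ x : X, g x = (π.1 x : EuclideanSpace ℝ (Fin n)) := fun π => π.2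
  choose h hh using hiso
  -- the words
  let xa : X → Fin (m + 1) → X := fun a i => (e.symm i).1 a
  have hms : ∀ a b, ms (xa a) = ms (xa b) := by
    intro a b
    obtain ⟨ρ, hρ⟩ := hQtr a b
    have hσ : xa b = fun i => xa a (((e.symm.trans (Equiv.mulRight ρ⁻¹)).trans e) i) := by
      funext i
      simp only [xa, Equiv.trans_apply, Equiv.symm_apply_apply, Equiv.coe_mulRight]
      rw [← hρ]
      show _ = ((e.symm i).1 * (ρ⁻¹ : Q).1) (ρ.1 b)
      simp
    rw [hσ, ms_perm]
  obtain ⟨J, V, hJ, val, lam, hsys, hsym, μ, hμ, hcnt⟩ := equalizer p hp.one_lt m X hXf hXn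
  obtain ⟨G, hG, ⟨k, hk⟩, act, hact⟩ := hsys.OP
  let F : X → J → X := fun a => ev lam (xa a)
  have hF : ∀ a b, ∃ g : G, F b = fun j => F a (act g j) := fun a b =>
    hact _ _ (hsym _ _ (hms a b))
  have hGf : Finite G := Nat.finite_of_card_ne_zero (by
    rw [hk]
    exact pow_ne_zero _ hp.ne_zero)
  obtain ⟨a0⟩ := hXn
  let M := Fintype.card (J × Fin n)
  let κ : Fin M ≃ J × Fin n := (Fintype.equivFin (J × Fin n)).symm
  let K : ℕ := (m + 1) * μ
  have hK : 0 < K := Nat.mul_pos (by omega) hμ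
  let c : ℝ := 1 / Real.sqrt K
  have hc : c ^ 2 * K = 1 := by
    simp only [c]
    rw [div_pow, one_pow, Real.sq_sqrt (by positivity)]
    field_simp
  let P : EuclideanSpace ℝ (Fin n) → J → EuclideanSpace ℝ (Fin n) := fun z j =>
    Sum.elim (fun i => h (e.symm i) z) (fun a : X => (a : EuclideanSpace ℝ (Fin n))) (lam j)
  have hP : ∀ (a : X) j, P a j = (F a j : EuclideanSpace ℝ (Fin n)) := by
    intro a j
    simp only [P, F, ev]
    cases lam j with
    | inl i =>
      simp only [Sum.elim_inl, xa]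
      exact hh _ a
    | inr b => rfl
  let f : EuclideanSpace ℝ (Fin n) → EuclideanSpace ℝ (Fin M) := fun z =>
    WithLp.toLp 2 (fun i => c * (P z (κ i).1) (κ i).2)
  let y : EuclideanSpace ℝ (Fin M) :=
    WithLp.toLp 2 (fun i => c * ((F a0 (κ i).1 : EuclideanSpace ℝ (Fin n)) (κ i).2))
  let ψ : G →* Equiv.Perm (Fin M) := (liftPerm κ).comp act
  refine ⟨M, ψ.range, y, f, ?_, ?_, ?_⟩
  · have h2 : IsPGroup p ψ.range := by
      have : IsPGroup p G := IsPGroup.of_card hk
      rw [MonoidHom.range_eq_map]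
      exact IsPGroup.map ((this.to_subgroup ⊤)) ψ
    have hfin : Finite ψ.range := Finite.of_surjective _ ψ.rangeRestrict_surjective
    exact IsPGroup.iff_card.1 h2
  · -- isometry
    refine Isometry.of_dist_eq fun z z' => ?_
    rw [EuclideanSpace.dist_eq]
    have h1 : ∑ i, dist (f z i) (f z' i) ^ 2 = dist z z' ^ 2 := by
      have h2 : ∀ i, dist (f z i) (f z' i) ^ 2
          = c ^ 2 * (dist ((P z (κ i).1) (κ i).2) ((P z' (κ i).1) (κ i).2)) ^ 2 := by
        intro i
        simp only [f]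
        rw [Real.dist_eq, Real.dist_eq, sq_abs, sq_abs]
        ring
      simp_rw [h2]
      rw [Equiv.sum_comp κ (fun q => c ^ 2 * (dist ((P z q.1) q.2) ((P z' q.1) q.2)) ^ 2)]
      rw [← Finset.mul_sum, Fintype.sum_prod_type]
      have h3 : ∀ j, ∑ r, dist ((P z j) r) ((P z' j) r) ^ 2 = dist (P z j) (P z' j) ^ 2 := by
        intro j
        rw [EuclideanSpace.dist_eq (P z j) (P z' j), Real.sq_sqrt]
        exact Finset.sum_nonneg fun i _ => sq_nonneg _
      simp_rw [h3]
      have h4 : ∀ j, dist (P z j) (P z' j) ^ 2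
          = (∑ i : Fin (m + 1), (ind (lam j) i : ℝ)) * dist z z' ^ 2 := by
        intro j
        simp only [P]
        cases lam j with
        | inl i =>
          simp only [Sum.elim_inl]
          rw [(h (e.symm i)).dist_eq]
          rw [Finset.sum_eq_single i]
          · rw [ind_inl]; simp
          · intro b _ hb
            rw [ind_inl_ne (Ne.symm hb)]; simp
          · intro hh; exact absurd (Finset.mem_univ _) hh
        | inr b =>
          simp [ind_inr]
      simp_rw [h4]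
      rw [← Finset.sum_mul, Finset.sum_comm]
      have h5 : ∀ i : Fin (m + 1), ∑ j, (ind (lam j) i : ℝ) = μ := by
        intro i
        have := hcnt i
        unfold cnt at this
        exact_mod_cast this
      simp_rw [h5]
      simp only [Finset.sum_const, Finset.card_univ, Fintype.card_fin, nsmul_eq_mul]
      rw [← mul_assoc]
      have h6 : c ^ 2 * (((m + 1 : ℕ) : ℝ) * μ) = 1 := by
        rw [← hc]
        simp only [K]
        push_cast
        ring
      rw [h6, one_mul]
    rw [h1, Real.sqrt_sq dist_nonneg]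
  · rintro _ ⟨a, ha, rfl⟩
    obtain ⟨g, hg⟩ := hF a0 ⟨a, ha⟩
    refine ⟨ψ g, ⟨g, rfl⟩, fun i => ?_⟩
    show c * (P a (κ i).1) (κ i).2 =
      c * ((F a0 (κ (liftPerm κ (act g) i)).1 : EuclideanSpace ℝ (Fin n))
        (κ (liftPerm κ (act g) i)).2)
    rw [hP ⟨a, ha⟩, hg, liftPerm_apply, Equiv.apply_symm_apply]

/-- For every prime `p`, every finite transitive set in `ℝ^d` has an isometric copy in the orbit of
a vector of `ℝ^n`, `n ≥ d`, under a group of permutations of the coordinates of order a power of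
`p`; such an orbit is a soluble set. In particular every transitive set is subsoluble. -/
theorem result : ∀ p : ℕ, p.Prime → ∀ (d : ℕ) (X : Set (EuclideanSpace ℝ (Fin d))),
    X.Finite → IsTransitiveSet X →
    ∃ n : ℕ, d ≤ n ∧ ∃ (H : Subgroup (Equiv.Perm (Fin n))) (y : EuclideanSpace ℝ (Fin n)),
      (∃ k : ℕ, Nat.card H = p ^ k) ∧ IsSolubleSet (orb H y) ∧
      ∃ f : EuclideanSpace ℝ (Fin d) → EuclideanSpace ℝ (Fin n),
        Isometry f ∧ f '' X ⊆ orb H y := by
  intro p hp d X hX htr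
  rcases Set.eq_empty_or_nonempty X with hne | hne
  · subst hne
    refine ⟨d, le_rfl, ⊥, 0, ⟨0, by simp⟩, soluble_orb _ _ p 0 hp (by simp), id, isometry_id,
      by simp⟩
  · obtain ⟨m, H, y, f, ⟨k, hk⟩, h2, h3⟩ := embed p hp d X hX hne htr
    refine ⟨m, ?_, H, y, ⟨k, hk⟩, soluble_orb H y p k hp hk, f, h2, h3⟩
    have hinj := (h2.affineIsometryOfStrictConvexSpace).linearIsometry.injective
    have := LinearMap.finrank_le_finrank_of_injective
      (f := (h2.affineIsometryOfStrictConvexSpace).linearIsometry.toLinearMap) hinj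
    simpa using this

end Pool.Agent.Results.MP_528470_co.PGroupOrbit
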